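import Mathlib

namespace Pool.Agent.Results.MP_362e7f_co.Apex

open Finset

/-- a hypergraph pair: a finite vertex set `V` and two hypergraphs (edge multisets) `H`, `F` -/
structure Pair (α : Type) where
  V : Finset α
  H : Multiset (Finset α)
  F : Multiset (Finset α)

variable {α : Type} [DecidableEq α]

/-- the edges of `E` inside `S` -/
def inside (E : Multiset (Finset α)) (S : Finset α) : Multiset (Finset α) := E.filter (· ⊆ S)

/-- hypotheses (*) -/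
def Star (P : Set (Pair α)) (h f f' : ℕ) (β : ℝ) : Prop :=
  0 < h ∧ 0 < f ∧ f ≤ f' ∧
  (∀ x ∈ P, (∀ e ∈ x.H, e ⊆ x.V) ∧ ∀ e ∈ x.F, e ⊆ x.V) ∧
  (∀ x ∈ P, ∀ S ⊆ x.V, (⟨S, inside x.H S, inside x.F S⟩ : Pair α) ∈ P) ∧
  (∀ x ∈ P, (∀ e ∈ x.H, e.card ≤ h) ∧ ∀ e ∈ x.F, f ≤ e.card ∧ e.card ≤ f') ∧
  β < h ∧
  (∃ C : ℝ, ∀ x ∈ P, ∀ I ⊆ x.V, (inside x.F I).card = 0 →
    ((inside x.H I).card : ℝ) ≤ C * (x.V.card : ℝ) ^ β) ∧
  (f : ℝ) < h - β ∧
  ∀ x ∈ P, ∀ e ∈ x.F, ∀ e' ∈ x.H, ¬ e ⊆ e'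

abbrev W : Type := Option (Fin 3 × ℕ)

def eH (a b c : ℕ) : Finset W := {none, some (0, a), some (1, b), some (2, c)}
def eF (i : Fin 3) (j j' : ℕ) : Finset W := {none, some (i, j), some (i, j')}

open Classical in
noncomputable def HH (V : Finset W) : Finset (Finset W) :=
  V.powerset.filter (fun e => ∃ a b c, e = eH a b c)

open Classical in
noncomputable def FF (V : Finset W) : Finset (Finset W) :=
  V.powerset.filter (fun e => ∃ i j j', j ≠ j' ∧ e = eF i j j')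

theorem mem_HH {V e} : e ∈ HH V ↔ e ⊆ V ∧ ∃ a b c, e = eH a b c := by simp [HH]
theorem mem_FF {V e} : e ∈ FF V ↔ e ⊆ V ∧ ∃ i j j', j ≠ j' ∧ e = eF i j j' := by simp [FF]

theorem inside_HH {V S : Finset W} (h : S ⊆ V) : inside (HH V).val S = (HH S).val := by
  rw [inside, ← filter_val]
  congr 1
  ext e
  simp only [mem_filter, mem_HH]
  exact ⟨fun h' => ⟨h'.2, h'.1.2⟩, fun h' => ⟨⟨h'.1.trans h, h'.2⟩, h'.1⟩⟩

theorem inside_FF {V S : Finset W} (h : S ⊆ V) : inside (FF V).val S = (FF S).val := by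
  rw [inside, ← filter_val]
  congr 1
  ext e
  simp only [mem_filter, mem_FF]
  exact ⟨fun h' => ⟨h'.2, h'.1.2⟩, fun h' => ⟨⟨h'.1.trans h, h'.2⟩, h'.1⟩⟩

def PP : Set (Pair W) := {x | x.H = (HH x.V).val ∧ x.F = (FF x.V).val}

theorem star : Star PP 4 3 3 0 := by
  refine ⟨by norm_num, by norm_num, le_rfl, ?_, ?_, ?_, by norm_num, ⟨1, ?_⟩, by norm_num, ?_⟩
  · rintro x ⟨h1, h2⟩
    rw [h1, h2]
    exact ⟨fun e he => (mem_HH.1 he).1, fun e he => (mem_FF.1 he).1⟩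
  · rintro x ⟨h1, h2⟩ S hS
    exact ⟨by rw [h1]; exact inside_HH hS, by rw [h2]; exact inside_FF hS⟩
  · rintro x ⟨h1, h2⟩
    rw [h1, h2]
    constructor
    · intro e he
      obtain ⟨-, a, b, c, rfl⟩ := mem_HH.1 he
      exact card_le_four
    · intro e he
      obtain ⟨-, i, j, j', h, rfl⟩ := mem_FF.1 he
      have : (eF i j j').card = 3 :=
        card_eq_three.2 ⟨_, _, _, by simp, by simp, by simpa using h, rfl⟩
      omega
  · rintro x ⟨h1, h2⟩ I hI h0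
    rw [h2, inside_FF hI, card_val, card_eq_zero] at h0
    rw [h1, inside_HH hI, card_val, Real.rpow_zero, mul_one]
    have key : ∀ i j j', none ∈ I → some (i, j) ∈ I → some (i, j') ∈ I → j = j' := by
      intro i j j' p1 p2 p3
      by_contra h
      have : eF i j j' ∈ FF I := mem_FF.2 ⟨by simp [eF, insert_subset_iff, *], i, j, j', h, rfl⟩
      rw [h0] at this; simp at this
    have : (HH I).card ≤ 1 := by
      rw [card_le_one]
      intro e he e' he'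
      obtain ⟨s, a, b, c, rfl⟩ := mem_HH.1 he
      obtain ⟨s', a', b', c', rfl⟩ := mem_HH.1 he'
      simp only [eH, insert_subset_iff, singleton_subset_iff] at s s'
      rw [key 0 a a' s.1 s.2.1 s'.2.1, key 1 b b' s.1 s.2.2.1 s'.2.2.1,
        key 2 c c' s.1 s.2.2.2 s'.2.2.2]
    exact_mod_cast this
  · rintro x ⟨h1, h2⟩ e he e' he' hs
    rw [h2] at he
    rw [h1] at he'
    obtain ⟨-, i, j, j', h, rfl⟩ := mem_FF.1 he
    obtain ⟨-, a, b, c, rfl⟩ := mem_HH.1 he'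
    simp only [eF, eH, insert_subset_iff, singleton_subset_iff] at hs
    fin_cases i <;> simp at hs <;> omega

def VV (t : ℕ) : Finset W := insert none ((univ ×ˢ range t).image some)

theorem card_HH (t : ℕ) : t ^ 3 ≤ (HH (VV t)).card := by
  have := card_le_card_of_injOn (s := range t ×ˢ range t ×ˢ range t) (t := HH (VV t))
    (fun p => eH p.1 p.2.1 p.2.2) (by
      rintro ⟨a, b, c⟩ hp
      simp only [coe_product, coe_range, Set.mem_prod, Set.mem_Iio] at hp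
      exact mem_coe.2 (mem_HH.2 ⟨by simp [eH, VV, insert_subset_iff, hp], a, b, c, rfl⟩)) (by
      rintro ⟨a, b, c⟩ - ⟨a', b', c'⟩ - h
      have h1 : eH a b c ⊆ eH a' b' c' := le_of_eq h
      simp [eH, insert_subset_iff] at h1
      simp [h1])
  simpa [pow_three] using this

theorem card_FF (t : ℕ) : (FF (VV t)).card ≤ 3 * t ^ 2 := by
  have h : FF (VV t) ⊆ ((univ : Finset (Fin 3)) ×ˢ range t ×ˢ range t).image
      (fun p => eF p.1 p.2.1 p.2.2) := by
    intro e he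
    obtain ⟨s, i, j, j', -, rfl⟩ := mem_FF.1 he
    simp [eF, VV, insert_subset_iff] at s
    exact mem_image.2 ⟨(i, j, j'), by simp [s], rfl⟩
  refine (card_le_card h).trans (card_image_le.trans ?_)
  simp [sq]

theorem result : ∃ (α : Type) (_ : DecidableEq α) (P : Set (Pair α)) (h f f' : ℕ) (β : ℝ),
    Star P h f f' β ∧ ∀ k₀ c : ℝ, 0 < c → ∃ x ∈ P, ∃ k : ℝ, k₀ ≤ k ∧
      k * (x.V.card : ℝ) ^ β ≤ x.H.card ∧ (x.F.card : ℝ) < c * k ^ ((f : ℝ) / (h - β)) := by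
  refine ⟨W, inferInstance, PP, 4, 3, 3, 0, star, fun k₀ c hc => ?_⟩
  obtain ⟨s, hs⟩ := exists_nat_gt (max (max k₀ 1) (3 / c))
  have h1 : k₀ < s := (le_max_left _ _).trans_lt ((le_max_left _ _).trans_lt hs)
  have h2 : (1 : ℝ) < s := (le_max_right _ _).trans_lt ((le_max_left _ _).trans_lt hs)
  have h3 : 3 < s * c := (div_lt_iff₀ hc).1 ((le_max_right _ _).trans_lt hs)
  refine ⟨⟨VV (s ^ 4), (HH (VV (s ^ 4))).val, (FF (VV (s ^ 4))).val⟩, ⟨rfl, rfl⟩,
    (s : ℝ) ^ 12, ?_, ?_, ?_⟩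
  · exact h1.le.trans (le_self_pow₀ h2.le (by norm_num))
  · rw [Real.rpow_zero, mul_one, card_val]
    have := card_HH (s ^ 4)
    rw [← pow_mul] at this
    exact_mod_cast this
  · have h4 : ((FF (VV (s ^ 4))).card : ℝ) ≤ 3 * (s : ℝ) ^ 8 := by
      have := card_FF (s ^ 4)
      rw [← pow_mul] at this
      exact_mod_cast this
    have h5 : ((s : ℝ) ^ 12) ^ (((3 : ℕ) : ℝ) / (((4 : ℕ) : ℝ) - 0)) = (s : ℝ) ^ 9 := by
      rw [← Real.rpow_natCast, ← Real.rpow_mul (by linarith), ← Real.rpow_natCast]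
      norm_num
    rw [h5, card_val]
    have h6 : (0 : ℝ) < (s : ℝ) ^ 8 := by positivity
    calc _ ≤ _ := h4
      _ < (s * c) * (s : ℝ) ^ 8 := by gcongr
      _ = _ := by ring

end Pool.Agent.Results.MP_362e7f_co.Apex
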